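import Pool.Agent.Results.MP_1858fb_ag.V0EqualsV
import Pool.Agent.H19VF.U6_RC

/-!
# The very free locus of a smooth rationally connected complex variety

Let `X` be a smooth complex variety, not necessarily projective, such that two general points of `X`
are joined by a rational curve. We prove that the very free locus `U` of `X`, the largest open subset
such that every finite set of closed points of `U` is joined by a very free curve, is `X` itself. In
particular every free rational curve lies in `U`.

The definitions of the projective line, of the splitting type of `f^* T_X` and of very free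
morphisms are in the file of MP_1858fb_ag.
-/

set_option autoImplicit false

open AlgebraicGeometry CategoryTheory Pool.Agent.Results.MP_1858fb_ag.V0EqualsV

namespace Pool.Agent.Results.MP_0ac1ea_ag.VeryFreeLocus

/-- The complex variety `X` is rationally connected: two general points of `X`, i.e. the components
`x`, `y` of each closed point `z = (x, y)` of some nonempty open subset of `X × X`, are contained in
the image of a nonconstant morphism `P1 ⟶ X`. -/
def IsRatConn {X : Scheme.{0}} (π : X ⟶ Spec (.of ℂ)) : Prop :=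
  ∃ O : (Limits.pullback π π).Opens, (O : Set ↥(Limits.pullback π π)).Nonempty ∧
    ∀ z ∈ O, IsClosed ({z} : Set ↥(Limits.pullback π π)) → ∃ f : P1 ℂ ⟶ X,
      f ≫ π = P1.str ℂ ∧ (∃ p q, f p ≠ f q) ∧ Limits.pullback.fst π π z ∈ Set.range f ∧
        Limits.pullback.snd π π z ∈ Set.range f

/-- The morphism `f : P1 ⟶ X` over the complex numbers is free: `f^* T_X` is a direct sum of line
bundles `O(a i)` with all `a i ≥ 0`. -/
def IsFree {X : Scheme.{0}} (π : X ⟶ Spec (.of ℂ)) (f : P1 ℂ ⟶ X) : Prop :=
  f ≫ π = P1.str ℂ ∧ ∃ (n : ℕ) (a : Fin n → ℤ), (∀ i, 0 ≤ a i) ∧ HasSplitting π f a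

/-- Every finite set of closed points of `U` is joined by a very free curve in `X`. -/
def Joined {X : Scheme.{0}} (π : X ⟶ Spec (.of ℂ)) (U : X.Opens) : Prop :=
  ∀ T : Finset X, (∀ v ∈ T, v ∈ U ∧ IsClosed ({v} : Set X)) →
    ∃ f : P1 ℂ ⟶ X, IsVeryFree π f ∧ ∀ v ∈ T, v ∈ Set.range f

theorem mem_range {X : Scheme.{0}} {π : X ⟶ Spec (.of ℂ)} [IsSeparated π] (f : P1 ℂ ⟶ X)
    (hf : f ≫ π = P1.str ℂ) (y : f.image) : f.imageι y ∈ Set.range f := by
  have hP : IsProper (P1.str ℂ) := inferInstanceAs (IsProper (H19VF.P1.str ℂ))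
  have hprop : IsProper f := by
    have : IsProper (f ≫ π) := by
      rw [hf]
      exact hP
    exact IsProper.of_comp f π
  have h1 : f.imageι y ∈ Set.range f.imageι := ⟨y, rfl⟩
  rw [Scheme.IdealSheafData.range_subschemeι, Scheme.Hom.support_ker] at h1
  rwa [f.isClosedMap.isClosed_range.closure_eq] at h1

/-- The very free locus `U` of a smooth rationally connected complex variety `X` is `X`, and every
free morphism from the projective line has image in `U`. -/
theorem result (X : Scheme.{0}) (π : X ⟶ Spec (.of ℂ)) [IsIntegral X] [IsSeparated π]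
    [LocallyOfFiniteType π] [QuasiCompact π] [Smooth π] (h : IsRatConn π) :
    IsGreatest {U : X.Opens | Joined π U} ⊤ ∧
      ∀ U : X.Opens, IsGreatest {U : X.Opens | Joined π U} U →
        ∀ f : P1 ℂ ⟶ X, IsFree π f → ∀ x, f x ∈ U := by
  have hex : ∃ f : P1 ℂ ⟶ X, IsVeryFree π f := by
    obtain ⟨n, hn⟩ := H19VF.exists_relDim (π := π)
    obtain ⟨O, hO, hz⟩ := h
    obtain ⟨F, hF⟩ := H19VF.exists_veryFree (n := n) O hO hz
    obtain ⟨f, hf, hfF⟩ := H19VF.Crv.exists_hom F
    subst hfF
    obtain ⟨a, ha, hsplit⟩ := H19VF.isSplit_of_isVeryFree (n := n) _ hF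
    exact ⟨f, hf, n, a, ha, (isSplit_iff f hf a).2 hsplit⟩
  have htop : Joined π ⊤ := by
    intro T hT
    rcases T.eq_empty_or_nonempty with rfl | hne
    · obtain ⟨f, hf⟩ := hex
      exact ⟨f, hf, fun v hv => absurd hv (Finset.notMem_empty v)⟩
    · obtain ⟨f, hf, -, h2⟩ := hasProp_top hex T hne hT
      refine ⟨f, hf, fun v hv => ?_⟩
      obtain ⟨y, hy, -⟩ := h2 v hv
      rw [← hy]
      exact mem_range f hf.1 y
  refine ⟨⟨htop, fun _ _ => le_top⟩, fun U hU f _ x => ?_⟩
  exact hU.2 htop trivial

end Pool.Agent.Results.MP_0ac1ea_ag.VeryFreeLocus
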